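import Mathlib

namespace Pool.Agent.Results.MP_01b7fc_pr.Counter

open Finset

/-- `π` is a stationary probability vector of the multispecies TASEP on the ring `Fin n` with
inverse rates `t` (labels are `0, …, n-1`; a word is a permutation `w`, with `w j` the entry at
position `j`; `finRotate n j` is the position to the right of `j`). The entry `i` at position
`j+1` swaps with its left neighbour at rate `1 / t i` when that neighbour is larger. The last
condition is the balance equation: rate out of `w` equals rate into `w`. -/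
def Stationary {n : ℕ} (t : Fin n → ℝ) (π : Equiv.Perm (Fin n) → ℝ) : Prop :=
  (∀ w, 0 ≤ π w) ∧ ∑ w, π w = 1 ∧ ∀ w : Equiv.Perm (Fin n),
    π w * ∑ j with w (finRotate n j) < w j, 1 / t (w (finRotate n j)) =
      ∑ j with w j < w (finRotate n j), π (w * Equiv.swap j (finRotate n j)) * (1 / t (w j))

/-- The event `E`: each of the `k` small entries sits where it sits in the reference word `u`. -/
def Ev {n : ℕ} (k : ℕ) (u : Equiv.Perm (Fin n)) : Finset (Equiv.Perm (Fin n)) :=
  {w | ∀ i : Fin n, (i : ℕ) < k → w.symm i = u.symm i}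

/-- The arrangement of the large entries (labels `≥ k`), read by increasing position. -/
def arr {n : ℕ} (k : ℕ) (w : Equiv.Perm (Fin n)) : List ℕ :=
  (List.ofFn fun j => (w j : ℕ)).filter (k ≤ ·)

/-- Conditional probability, given `E`, that the arrangement is `σ`. -/
noncomputable def cond {n : ℕ} (π : Equiv.Perm (Fin n) → ℝ) (k : ℕ) (u : Equiv.Perm (Fin n))
    (σ : List ℕ) : ℝ :=
  (∑ w ∈ Ev k u with arr k w = σ, π w) / ∑ w ∈ Ev k u, π w

/-- Claim 1: the maximum over all arrangements is attained at a cyclically ascending one. -/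
def MaxClaim : Prop :=
  ∀ (n k : ℕ), 2 ≤ n → k < n → ∀ t : Fin n → ℝ, (∀ i, 0 < t i) → ∀ π, Stationary t π →
    ∀ u : Equiv.Perm (Fin n), ∃ σ, σ ~r List.range' k (n - k) ∧
      ∀ τ, τ.Perm (List.range' k (n - k)) → cond π k u τ ≤ cond π k u σ

/-- Claim 2: the minimum over all arrangements is attained at a cyclically descending one. -/
def MinClaim : Prop :=
  ∀ (n k : ℕ), 2 ≤ n → k < n → ∀ t : Fin n → ℝ, (∀ i, 0 < t i) → ∀ π, Stationary t π →
    ∀ u : Equiv.Perm (Fin n), ∃ σ, σ ~r (List.range' k (n - k)).reverse ∧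
      ∀ τ, τ.Perm (List.range' k (n - k)) → cond π k u σ ≤ cond π k u τ

/-- rotate a base-6 code until its last digit is `0` -/
def nrm : ℕ → ℕ → ℕ
  | 0, c => c
  | k + 1, c => if c % 6 = 0 then c else nrm k (c / 6 + c % 6 * 7776)

/-- weight read from a table, up to rotation -/
def wt (tab : List (ℕ × ℕ)) (a b c d e f : Fin 6) : ℕ :=
  (tab.lookup (nrm 5 (a + 6 * (b + 6 * (c + 6 * (d + 6 * (e + 6 * f))))))).getD 0

/-- weight of a word -/
def W (tab : List (ℕ × ℕ)) (w : Equiv.Perm (Fin 6)) : ℕ := wt tab (w 0) (w 1) (w 2) (w 3) (w 4) (w 5)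

/-- quantification over six distinct labels -/
def All (P : Fin 6 → Fin 6 → Fin 6 → Fin 6 → Fin 6 → Fin 6 → Bool) : Bool :=
  (List.finRange 6).all fun a => (List.finRange 6).all fun b => a == b ||
  (List.finRange 6).all fun c => a == c || b == c || (List.finRange 6).all fun d =>
    a == d || b == d || c == d || (List.finRange 6).all fun e =>
    a == e || b == e || c == e || d == e || (List.finRange 6).all fun f =>
    a == f || b == f || c == f || d == f || e == f || P a b c d e f

lemma All.perm {P} (h : All P = true) (w : Equiv.Perm (Fin 6)) :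
    P (w 0) (w 1) (w 2) (w 3) (w 4) (w 5) = true := by
  simp only [All, List.all_eq_true, List.mem_finRange, forall_const, Bool.or_eq_true,
    beq_iff_eq] at h
  have h1 := (h (w 0) (w 1)).resolve_left (by simp)
  have h2 := (h1 (w 2)).resolve_left (by simp)
  have h3 := (h2 (w 3)).resolve_left (by simp)
  have h4 := (h3 (w 4)).resolve_left (by simp)
  exact (h4 (w 5)).resolve_left (by simp)

/-- balance equation for a weight table -/
def Bal (T : List (ℕ × ℕ)) (r : Fin 6 → ℕ) (a b c d e f : Fin 6) : Bool :=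
  wt T a b c d e f * ((if b < a then r b else 0) + (if c < b then r c else 0) +
    (if d < c then r d else 0) + (if e < d then r e else 0) + (if f < e then r f else 0) +
    (if a < f then r a else 0)) ==
  (if a < b then wt T b a c d e f * r a else 0) + (if b < c then wt T a c b d e f * r b else 0) +
  (if c < d then wt T a b d c e f * r c else 0) + (if d < e then wt T a b c e d f * r d else 0) +
  (if e < f then wt T a b c d f e * r e else 0) + (if f < a then wt T f b c d e a * r f else 0)

lemma stat_of {n : ℕ} (W : Equiv.Perm (Fin n) → ℕ) (r : Fin n → ℕ) (L : ℕ)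
    (hZ : 0 < ∑ w, W w) (h2 : ∀ w : Equiv.Perm (Fin n),
      W w * ∑ j with w (finRotate n j) < w j, r (w (finRotate n j)) =
      ∑ j with w j < w (finRotate n j), W (w * Equiv.swap j (finRotate n j)) * r (w j)) :
    Stationary (fun i => (L : ℝ) / r i) fun w => (W w : ℝ) / (∑ w, W w : ℕ) := by
  refine ⟨fun w => by positivity, ?_, fun w => ?_⟩
  · rw [← sum_div, ← Nat.cast_sum, div_self (by positivity)]
  · generalize ∑ w, W w = Z
    have := congrArg (fun x : ℕ => (x : ℝ) / Z / L) (h2 w)
    simp only [Nat.cast_mul, Nat.cast_sum, sum_div] at this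
    simp only [one_div, inv_div]
    rw [← sum_div]
    exact ((by ring : _ = _).trans this).trans (sum_congr rfl fun j _ => by ring)

lemma bal {T : List (ℕ × ℕ)} {r : Fin 6 → ℕ} (h : All (Bal T r) = true) (w : Equiv.Perm (Fin 6)) :
    W T w * ∑ j with w (finRotate 6 j) < w j, r (w (finRotate 6 j)) =
      ∑ j with w j < w (finRotate 6 j), W T (w * Equiv.swap j (finRotate 6 j)) * r (w j) := by
  rw [sum_filter, sum_filter, Fin.sum_univ_six, Fin.sum_univ_six]
  exact beq_iff_eq.1 (All.perm h w)

lemma cond_eq {n : ℕ} (W : Equiv.Perm (Fin n) → ℕ) (k : ℕ) (u v : Equiv.Perm (Fin n))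
    (hv : v ∈ Ev k u) (hinj : ∀ w ∈ Ev k u, arr k w = arr k v → w = v) (Z : ℕ) :
    cond (fun w => (W w : ℝ) / Z) k u (arr k v) = W v / Z / ∑ w ∈ Ev k u, (W w : ℝ) / Z := by
  rw [cond, sum_eq_single_of_mem (s := (Ev k u).filter fun w => arr k w = arr k v) v
    (mem_filter.2 ⟨hv, rfl⟩) fun w hw hne =>
    absurd (hinj w (mem_filter.1 hw).1 (mem_filter.1 hw).2) hne]

lemma inj (p : Fin 6) (hp : p = 3 ∨ p = 4) (v : Equiv.Perm (Fin 6)) (hv : v ∈ Ev 2 (Equiv.swap 1 p))
    (w : Equiv.Perm (Fin 6)) (hw : w ∈ Ev 2 (Equiv.swap 1 p)) (h : arr 2 w = arr 2 v) : w = v := by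
  have key : ∀ w ∈ Ev 2 (Equiv.swap 1 p), w 0 = 0 ∧ w p = 1 ∧ ∀ j, j ≠ 0 → j ≠ p →
      2 ≤ (w j : ℕ) := by
    intro w hw
    have h0 : w 0 = 0 := by
      have := (mem_filter.1 hw).2 0 (by simp)
      rw [Equiv.symm_apply_eq] at this
      rcases hp with rfl | rfl <;> exact this.symm
    have h1 : w p = 1 := by
      have := (mem_filter.1 hw).2 1 (by simp)
      rw [Equiv.symm_apply_eq] at this
      rcases hp with rfl | rfl <;> exact this.symm
    refine ⟨h0, h1, fun j j0 jp => ?_⟩
    have h2 : w j ≠ 0 := h0 ▸ w.injective.ne j0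
    have h3 : w j ≠ 1 := h1 ▸ w.injective.ne jp
    omega
  obtain ⟨a0, a1, a2⟩ := key w hw
  obtain ⟨b0, b1, b2⟩ := key v hv
  ext j
  rcases hp with rfl | rfl <;>
  · simp [arr, List.ofFn_succ, List.filter_cons, a0, a1, a2, b0, b1, b2] at h
    fin_cases j <;> simp [a0, a1, b0, b1, h]

/-- the word with the given entries -/
noncomputable def wd (a b c d e f : Fin 6) (h : Function.Injective ![a, b, c, d, e, f]) :
    Equiv.Perm (Fin 6) := Equiv.ofBijective _ (Finite.injective_iff_bijective.1 h)

lemma cmp (T : List (ℕ × ℕ)) (p : Fin 6) (hp : p = 3 ∨ p = 4) (v w : Equiv.Perm (Fin 6))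
    (hv : v ∈ Ev 2 (Equiv.swap 1 p)) (hw : w ∈ Ev 2 (Equiv.swap 1 p)) (h : W T v < W T w) :
    cond (fun w => (W T w : ℝ) / (∑ w, W T w : ℕ)) 2 (Equiv.swap 1 p) (arr 2 v) <
      cond (fun w => (W T w : ℝ) / (∑ w, W T w : ℕ)) 2 (Equiv.swap 1 p) (arr 2 w) := by
  rw [cond_eq _ _ _ _ hv (inj p hp v hv), cond_eq _ _ _ _ hw (inj p hp w hw)]
  have h1 : 0 < ∑ w, W T w := sum_pos' (fun _ _ => Nat.zero_le _) ⟨w, mem_univ _, by omega⟩
  generalize ∑ w, W T w = Z at h1
  have h3 : (0 : ℝ) < Z := Nat.cast_pos.2 h1
  have h2 : 0 < ∑ w ∈ Ev 2 (Equiv.swap 1 p), (W T w : ℝ) / Z :=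
    sum_pos' (fun _ _ => div_nonneg (Nat.cast_nonneg _) h3.le)
      ⟨w, hw, div_pos (Nat.cast_pos.2 (by omega)) h3⟩
  exact div_lt_div_of_pos_right (div_lt_div_of_pos_right (Nat.cast_lt.2 h) h3) h2

lemma ev (p : Fin 6) (hp : p = 3 ∨ p = 4) (w : Equiv.Perm (Fin 6)) (h0 : w 0 = 0) (h1 : w p = 1) :
    w ∈ Ev 2 (Equiv.swap 1 p) := by
  refine mem_filter.2 ⟨mem_univ _, fun i hi => (Equiv.symm_apply_eq _).2 ?_⟩
  rcases (by omega : i = 0 ∨ i = 1) with rfl | rfl <;> rcases hp with rfl | rfl <;>
    first | exact h0.symm | exact h1.symm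

/-- first table -/
def tA : List (ℕ × ℕ) :=
  [(44790, 74100), (38310, 5700), (43710, 18900), (30750, 52650), (36150, 56700), (29670, 4050),
   (44610, 36660), (38130, 2820), (42450, 18760), (23010, 7410), (34890, 4480), (21930, 570),
   (43350, 7590), (30390, 33390), (42270, 2610), (22830, 1890), (27150, 19955), (20670, 5265),
   (35610, 39870), (29130, 6930), (34530, 16290), (21570, 5670), (26970, 1535), (20490, 405),
   (44760, 14820), (38280, 1140), (43680, 3780), (30720, 10530), (36120, 11340), (29640, 810),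
   (44400, 20670), (37920, 1590), (41160, 20510), (15240, 14820), (33600, 3290), (14160, 1140),
   (43140, 4920), (30180, 16155), (40980, 4005), (15060, 3780), (25860, 17680), (12900, 10530),
   (35400, 18180), (28920, 2115), (33240, 16785), (13800, 11340), (25680, 1360), (12720, 810),
   (44550, 44408), (38070, 3416), (42390, 26068), (22950, 12558), (34830, 5684), (21870, 966),
   (44370, 6682), (37890, 514), (41130, 9002), (15210, 7332), (33570, 1246), (14130, 564),
   (41850, 32256), (22410, 16753), (40770, 3519), (14850, 3752), (18090, 20748), (11610, 1482),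
   (34110, 9156), (21150, 2329), (33030, 1059), (13590, 896), (17910, 1596), (11430, 114),
   (43260, 7342), (30300, 43857), (42180, 3098), (22740, 3027), (27060, 29119), (20580, 9657),
   (43080, 1013), (30120, 6768), (40920, 1147), (15000, 1518), (25800, 9716), (12840, 6678),
   (41820, 3447), (22380, 3528), (40740, 333), (14820, 522), (18060, 5292), (11580, 378),
   (26340, 37830), (19860, 13754), (25260, 4290), (12300, 3991), (17700, 14742), (11220, 1053),
   (35490, 54706), (29010, 11709), (34410, 25462), (21450, 10791), (26850, 3893), (20370, 1179),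
   (35310, 8549), (28830, 1926), (33150, 10613), (13710, 7974), (25590, 2212), (12630, 1386),
   (34050, 28935), (21090, 13482), (32970, 3195), (13530, 3258), (17850, 15876), (11370, 1134),
   (26310, 2910), (19830, 1058), (25230, 330), (12270, 307), (17670, 1134), (11190, 81)]

/-- second table -/
def tB : List (ℕ × ℕ) :=
  [(44790, 6888400), (38310, 6800000), (43710, 6516500), (30750, 5065000), (36150, 6568000),
   (29670, 5000000), (44610, 3474590), (38130, 3430000), (42450, 2012440), (23010, 688840),
   (34890, 1993430), (21930, 680000), (43350, 4055050), (30390, 3540500), (42270, 1651550),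
   (22830, 651650), (27150, 1874050), (20670, 506500), (35610, 4097600), (29130, 3505000),
   (34530, 1669900), (21570, 656800), (26970, 1850000), (20490, 500000), (44760, 1377680),
   (38280, 1360000), (43680, 1303300), (30720, 1013000), (36120, 1313600), (29640, 1000000),
   (44400, 1934830), (37920, 1910000), (41160, 2054480), (15240, 1377680), (33600, 2031910),
   (14160, 1360000), (43140, 1983980), (30180, 1619800), (40980, 1803100), (15060, 1303300),
   (25860, 1681580), (12900, 1013000), (35400, 2001760), (28920, 1601000), (33240, 1820300),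
   (13800, 1313600), (25680, 1660000), (12720, 1000000), (44550, 4238392), (38070, 4184000),
   (42390, 2768397), (22950, 1174067), (34830, 2741184), (21870, 1159000), (44370, 639203),
   (37890, 631000), (41130, 903978), (15210, 694918), (33570, 893631), (14130, 686000),
   (41850, 3590624), (22410, 1646992), (40770, 397216), (14850, 402488), (18090, 1928752),
   (11610, 137768), (34110, 3559552), (21150, 1628159), (33030, 393893), (13590, 398686),
   (17910, 1904000), (11430, 136000), (43260, 5293490), (30300, 4852900), (42180, 2486295),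
   (22740, 1187485), (27060, 2864940), (20580, 961850), (43080, 815395), (30120, 758150),
   (40920, 1010370), (15000, 811010), (25800, 1036665), (12840, 708100), (41820, 2841400),
   (22380, 1472840), (40740, 310100), (14820, 330310), (18060, 1824620), (11580, 130330),
   (26340, 3535370), (19860, 1311835), (25260, 400135), (12300, 374810), (17700, 1418200),
   (11220, 101300), (35490, 5355280), (29010, 4809500), (34410, 2516010), (21450, 1197920),
   (26850, 2831850), (20370, 950500), (35310, 825200), (28830, 751600), (33150, 1022760),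
   (13710, 819520), (25590, 1026660), (12630, 701000), (34050, 2875520), (21090, 1486270),
   (32970, 313930), (13530, 333980), (17850, 1839040), (11370, 131360), (26310, 3490000),
   (19830, 1295000), (25230, 395000), (12270, 370000), (17670, 1400000), (11190, 100000)]

theorem result : ¬ MaxClaim ∧ ¬ MinClaim := by
  constructor
  · intro h
    obtain ⟨σ, h1, h2⟩ := h 6 2 (by norm_num) (by norm_num) _ (fun i => by fin_cases i <;> simp) _
      (stat_of (W tB) ![1000, 1000, 1000, 100, 1, 1000] 1000 (sum_pos' (fun _ _ => Nat.zero_le _)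
        ⟨1, mem_univ _, by decide +kernel⟩) (bal (by decide +kernel))) (Equiv.swap 1 3)
    have h3 := h2 [3, 4, 2, 5] (by decide)
    have h4 := List.mem_cyclicPermutations_iff.2 h1
    have h5 := fun v hv => cmp tB 3 (by simp) v (wd 0 3 4 1 2 5 (by decide)) hv (ev _ (by simp) _ rfl rfl)
    simp only [show (List.range' 2 (6 - 2)).cyclicPermutations =
      [[2, 3, 4, 5], [3, 4, 5, 2], [4, 5, 2, 3], [5, 2, 3, 4]] by decide, List.mem_cons,
      List.not_mem_nil, or_false] at h4
    rcases h4 with rfl | rfl | rfl | rfl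
    · exact h3.not_gt (h5 (wd 0 2 3 1 4 5 (by decide)) (ev _ (by simp) _ rfl rfl) (by decide +kernel))
    · exact h3.not_gt (h5 (wd 0 3 4 1 5 2 (by decide)) (ev _ (by simp) _ rfl rfl) (by decide +kernel))
    · exact h3.not_gt (h5 (wd 0 4 5 1 2 3 (by decide)) (ev _ (by simp) _ rfl rfl) (by decide +kernel))
    · exact h3.not_gt (h5 (wd 0 5 2 1 3 4 (by decide)) (ev _ (by simp) _ rfl rfl) (by decide +kernel))
  · intro h
    obtain ⟨σ, h1, h2⟩ := h 6 2 (by norm_num) (by norm_num) _ (fun i => by fin_cases i <;> simp) _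
      (stat_of (W tA) ![9, 9, 9, 1, 9, 9] 9 (sum_pos' (fun _ _ => Nat.zero_le _)
        ⟨1, mem_univ _, by decide +kernel⟩) (bal (by decide +kernel))) (Equiv.swap 1 4)
    have h3 := h2 [5, 4, 2, 3] (by decide)
    have h4 := List.mem_cyclicPermutations_iff.2 h1
    have h5 := fun v hv => cmp tA 4 (by simp) (wd 0 5 4 2 1 3 (by decide)) v (ev _ (by simp) _ rfl rfl) hv
    simp only [show (List.range' 2 (6 - 2)).reverse.cyclicPermutations =
      [[5, 4, 3, 2], [4, 3, 2, 5], [3, 2, 5, 4], [2, 5, 4, 3]] by decide, List.mem_cons,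
      List.not_mem_nil, or_false] at h4
    rcases h4 with rfl | rfl | rfl | rfl
    · exact h3.not_gt (h5 (wd 0 5 4 3 1 2 (by decide)) (ev _ (by simp) _ rfl rfl) (by decide +kernel))
    · exact h3.not_gt (h5 (wd 0 4 3 2 1 5 (by decide)) (ev _ (by simp) _ rfl rfl) (by decide +kernel))
    · exact h3.not_gt (h5 (wd 0 3 2 5 1 4 (by decide)) (ev _ (by simp) _ rfl rfl) (by decide +kernel))
    · exact h3.not_gt (h5 (wd 0 2 5 4 1 3 (by decide)) (ev _ (by simp) _ rfl rfl) (by decide +kernel))

end Pool.Agent.Results.MP_01b7fc_pr.Counter
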